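import Pool.Agent.HCA.Stmt

/-!
MP_300e65_an: functional calculus for generators of contraction semigroups on `L_p`, full answer.

(a) and (b) are true for every `1 < p < ∞`: if `A` is sectorial on an `L_p` space and `-A` generates a
contractive `C_0`-semigroup, then `A` has a bounded `H^∞` calculus and bounded imaginary powers.
(c) is false: on an `L_4` space there is such an `A` with `ω(A) < π/2`, generating an analytic
contraction semigroup that is not `R`-analytic.

Proof of (a). A finite dimensional energy method. For a matrix `A` whose resolvents
`J_l = (1 + l A)⁻¹` are contractions of `ℓ_p^n`, `p ≥ 2`, one shows upper and lower square function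
estimates for the increments of `k ↦ J_{q^k} u`, by letting energies of the form
`‖(E_j u)_{j ≥ k + L}, J_{q^k} u‖_p^p` decrease, where `E_k u` are modified increments for which
`q^k A E_k u` is again a combination of increments. This gives the `R`-boundedness of the resolvents
and, with the square functions, the bounded `H^∞` calculus, with constants depending on `p` only;
`p < 2` by duality, general `L_p` spaces by Yosida approximation and compression to simple functions.

Proof of (c). `A_0 = 1 - E + κ Q` on a finite probability space, `Q` small on `L_4` and equal to
`U (1 - U)⁻¹` with an isometric shift `U` on `L_2`, tensor products with lacunary time scales and a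
direct sum.

All definitions are in `Pool.Agent.HCA.Defs` and `Pool.Agent.HCA.Stmt`.
-/

set_option autoImplicit false

namespace Pool.Agent.Results.MP_300e65_an.ContractionHInf

open Pool.Agent.HCA MeasureTheory
open scoped ENNReal

universe u

/-- (a), (b): for `1 < p < ∞`, every measure space, every sectorial `A` on `L_p` such that `-A`
generates a contractive `C_0`-semigroup has a bounded `H^∞` calculus and bounded imaginary powers.
(c) fails: on some `L_4` space there is a sectorial `A` with `ω(A) < π/2` such that `-A` generates an
analytic contractive `C_0`-semigroup which is not `R`-analytic. -/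
theorem result :
    (∀ (p : ℝ≥0∞) [Fact (1 ≤ p)], 1 < p → p ≠ ∞ → ∀ (Ω : Type u) [MeasurableSpace Ω]
      (μ : Measure Ω), GeneratorsHaveCalculus (Lp ℂ p μ)) ∧
    ∃ (Ω : Type) (_ : MeasurableSpace Ω) (μ : Measure Ω), HasNonRAnalytic (Lp ℂ 4 μ) :=
  ⟨fun _ _ hp1 hp _ _ μ A T hA hT hc hg => fin_ab hp1 hp μ A T hA hT hc hg, fin_c⟩

end Pool.Agent.Results.MP_300e65_an.ContractionHInf
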